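import Mathlib

/-!
# A separable refinement of Ky Fan's eigenvalue majorization

For positive semidefinite matrices `A i` (size `m`) and `B i` (size `n`), `i` in a finite index set,
we prove that the spectrum of `∑ i, A i ⊗ B i` is majorized by the spectrum of
`∑ i, (A i)↓ ⊗ (B i)↓`, where `X↓` is the diagonal matrix of the eigenvalues of `X` in nonincreasing
order.  The case of two summands is the question.

Idea of the proof.  Fix `t` and let `u₁, …, u_t` be orthonormal eigenvectors for the `t` largest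
eigenvalues of `M = ∑ A i ⊗ B i`.  Let `ρ` be the reduced matrix (second factor) of the projection
onto their span and let `β₁ ≥ … ≥ β_n` be its eigenvalues; then `0 ≤ β_y ≤ m` and `∑ β_y = t`.
Let `d x y = clamp (β_y - x)` (`x = 0, …, m-1`), the fraction of the unit cell `(x, y)` lying below
height `β_y`.  For orthonormal bases `e`, `f` the numbers `p x y = ∑_l |⟨e_x ⊗ f_y, u_l⟩|²` satisfy
`∑_{x<r, y<s} p x y ≤ ∑_{y<s} min (β_y, r) = ∑_{x<r, y<s} d x y` for all `r, s`
(Ky Fan and Weyl applied to the reduced matrix of the first `r` vectors `e_x`).  Two-dimensional Abel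
summation compares each summand of `M` with the weights `d`, which do not depend on the summand, and
`d` is a fractional `t`-subset of the cells, so the total is at most the sum of the `t` largest
diagonal entries of `M' = ∑ (A i)↓ ⊗ (B i)↓`.
-/

set_option autoImplicit false
open scoped InnerProductSpace ComplexOrder Kronecker
open Finset

namespace Pool.Agent.Results.MP_5fe7ea_an.SeparableKyFan

/-- fractional subsets -/
lemma frac_subset {k : ℕ} (x w : Fin k → ℝ) (hx : Antitone x) (hw0 : ∀ j, 0 ≤ w j)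
    (hw1 : ∀ j, w j ≤ 1) (t : ℕ) (ht : t ≤ k) (hsum : ∑ j, w j = t) :
    ∑ j, w j * x j ≤ ∑ j : Fin k with j.val < t, x j := by
  rcases Nat.eq_zero_or_pos t with h0 | hpos
  · subst h0
    have hw : ∀ j, w j = 0 := by
      have := (Finset.sum_eq_zero_iff_of_nonneg (fun j _ => hw0 j)).1 (by simpa using hsum)
      intro j; exact this j (mem_univ j)
    simp [hw]
  · set c : ℝ := x ⟨t - 1, by omega⟩ with hc
    have h1 : ∀ j : Fin k, j.val < t → c ≤ x j := by
      intro j hj
      apply hx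
      rw [Fin.le_def]; simp only; omega
    have h2 : ∀ j : Fin k, ¬ j.val < t → x j ≤ c := by
      intro j hj
      apply hx
      rw [Fin.le_def]; simp only; omega
    have hcard : ((univ.filter (fun j : Fin k => j.val < t)).card : ℝ) = t := by
      have : (univ.filter (fun j : Fin k => j.val < t)).card = t := by
        rw [Fin.card_filter_val_lt]; omega
      rw [this]
    have key : ∀ j : Fin k, w j * (x j - c) ≤ if j.val < t then (x j - c) else 0 := by
      intro j
      split_ifs with h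
      · nlinarith [h1 j h, hw0 j, hw1 j]
      · nlinarith [h2 j h, hw0 j]
    have hs := Finset.sum_le_sum (fun j (_ : j ∈ (univ : Finset (Fin k))) => key j)
    rw [← Finset.sum_filter] at hs
    have e1 : ∑ j, w j * (x j - c) = ∑ j, w j * x j - c * t := by
      simp_rw [mul_sub]
      rw [Finset.sum_sub_distrib, ← Finset.sum_mul, hsum]; ring
    have e2 : ∑ j : Fin k with j.val < t, (x j - c) = ∑ j : Fin k with j.val < t, x j - c * t := by
      rw [Finset.sum_sub_distrib, Finset.sum_const, nsmul_eq_mul, hcard]; ring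
    rw [e1, e2] at hs
    linarith

/-- one-dimensional Abel summation inequality -/
lemma abel_one {m : ℕ} (a g : Fin m → ℝ) (ha : Antitone a) (ha0 : ∀ x, 0 ≤ a x)
    (hg : ∀ r : ℕ, r ≤ m → ∑ x : Fin m with x.val < r, g x ≤ 0) : ∑ x, a x * g x ≤ 0 := by
  induction m with
  | zero => simp
  | succ m ih =>
    -- subtract the constant `a (last)`
    set c := a (Fin.last m) with hc
    have h1 : ∑ x, a x * g x = ∑ x, (a x - c) * g x + c * ∑ x, g x := by
      rw [Finset.mul_sum, ← Finset.sum_add_distrib]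
      congr 1; ext x; ring
    have h2 : ∑ x, g x ≤ 0 := by
      have := hg (m + 1) le_rfl
      rwa [Finset.filter_true_of_mem (fun x _ => x.2)] at this
    have h3 : ∑ x, (a x - c) * g x = ∑ x : Fin m, (a x.castSucc - c) * g x.castSucc := by
      rw [Fin.sum_univ_castSucc]
      simp [hc]
    have h4 : ∑ x : Fin m, (a x.castSucc - c) * g x.castSucc ≤ 0 := by
      apply ih (fun x => a x.castSucc - c) (fun x => g x.castSucc)
      · intro x y hxy
        have := ha (Fin.castSucc_le_castSucc_iff.2 hxy)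
        simp only; linarith
      · intro x
        have := ha (Fin.le_last x.castSucc)
        change 0 ≤ a x.castSucc - c
        linarith
      · intro r hr
        have := hg r (by omega)
        rw [Finset.sum_filter, Fin.sum_univ_castSucc] at this
        rw [Finset.sum_filter]
        have hlast : ¬ (Fin.last m).val < r := by simp; omega
        simp only [Fin.val_castSucc] at this ⊢
        rw [if_neg hlast, add_zero] at this
        exact this
    have hc0 : 0 ≤ c := ha0 _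
    rw [h1, h3]
    nlinarith

/-- two-dimensional Abel summation inequality -/
lemma abel_two {m n : ℕ} (a : Fin m → ℝ) (b : Fin n → ℝ) (p d : Fin m → Fin n → ℝ)
    (ha : Antitone a) (ha0 : ∀ x, 0 ≤ a x) (hb : Antitone b) (hb0 : ∀ y, 0 ≤ b y)
    (h : ∀ r ≤ m, ∀ s ≤ n, ∑ y : Fin n with y.val < s, ∑ x : Fin m with x.val < r, p x y
      ≤ ∑ y : Fin n with y.val < s, ∑ x : Fin m with x.val < r, d x y) :
    ∑ x, ∑ y, a x * b y * p x y ≤ ∑ x, ∑ y, a x * b y * d x y := by
  have key : ∑ x, a x * ∑ y, b y * (p x y - d x y) ≤ 0 := by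
    apply abel_one a _ ha ha0
    intro r hr
    rw [Finset.sum_comm]
    have : ∑ y, ∑ x : Fin m with x.val < r, b y * (p x y - d x y)
        = ∑ y, b y * ∑ x : Fin m with x.val < r, (p x y - d x y) := by
      simp_rw [Finset.mul_sum]
    rw [this]
    apply abel_one b _ hb hb0
    intro s hs
    have := h r hr s hs
    simp_rw [Finset.sum_sub_distrib]
    linarith
  have e : ∑ x, a x * ∑ y, b y * (p x y - d x y)
      = ∑ x, ∑ y, a x * b y * p x y - ∑ x, ∑ y, a x * b y * d x y := by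
    rw [← Finset.sum_sub_distrib]
    congr 1; ext x
    rw [Finset.mul_sum, ← Finset.sum_sub_distrib]
    congr 1; ext y; ring
  linarith


/-! ### Spectral part -/

section spectral

variable {ι : Type*} [Fintype ι] [DecidableEq ι]

/-- the quadratic form of a matrix -/
noncomputable def q (X : Matrix ι ι ℂ) (f : EuclideanSpace ℂ ι) : ℝ :=
  (⟪f, Matrix.toEuclideanLin X f⟫_ℂ).re

/-- sorted eigenbasis -/
noncomputable def vb {X : Matrix ι ι ℂ} (hX : X.IsHermitian) :
    OrthonormalBasis (Fin (Fintype.card ι)) ℂ (EuclideanSpace ℂ ι) :=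
  (Matrix.isSymmetric_toEuclideanLin_iff.mpr hX).eigenvectorBasis finrank_euclideanSpace

lemma apply_vb {X : Matrix ι ι ℂ} (hX : X.IsHermitian) (j : Fin (Fintype.card ι)) :
    Matrix.toEuclideanLin X (vb hX j) = (hX.eigenvalues₀ j : ℂ) • vb hX j :=
  (Matrix.isSymmetric_toEuclideanLin_iff.mpr hX).apply_eigenvectorBasis finrank_euclideanSpace j

lemma q_eq_sum {X : Matrix ι ι ℂ} {κ : Type*} [Fintype κ] (v : OrthonormalBasis κ ℂ (EuclideanSpace ℂ ι))
    (μ : κ → ℝ) (hv : ∀ j, Matrix.toEuclideanLin X (v j) = (μ j : ℂ) • v j)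
    (f : EuclideanSpace ℂ ι) :
    q X f = ∑ j, μ j * ‖⟪v j, f⟫_ℂ‖ ^ 2 := by
  unfold q
  have hf : f = ∑ j, ⟪v j, f⟫_ℂ • v j := (v.sum_repr' f).symm
  have h1 : Matrix.toEuclideanLin X f = ∑ j, ⟪v j, f⟫_ℂ • ((μ j : ℂ) • v j) := by
    conv_lhs => rw [hf]
    rw [map_sum]
    congr 1; ext1 j
    rw [map_smul, hv]
  rw [h1, inner_sum, Complex.re_sum]
  congr 1; ext1 j
  rw [inner_smul_right, inner_smul_right]
  have h2 : ⟪f, v j⟫_ℂ = (starRingEnd ℂ) ⟪v j, f⟫_ℂ := (inner_conj_symm _ _).symm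
  rw [h2]
  have h3 : ⟪v j, f⟫_ℂ * ((μ j : ℂ) * (starRingEnd ℂ) ⟪v j, f⟫_ℂ)
      = ((μ j * ‖⟪v j, f⟫_ℂ‖ ^ 2 : ℝ) : ℂ) := by
    have := Complex.mul_conj' (⟪v j, f⟫_ℂ)
    push_cast
    rw [← this]; ring
  rw [h3, Complex.ofReal_re]

lemma q_vb {X : Matrix ι ι ℂ} (hX : X.IsHermitian) (j : Fin (Fintype.card ι)) :
    q X (vb hX j) = hX.eigenvalues₀ j := by
  unfold q
  rw [apply_vb, inner_smul_right, inner_self_eq_norm_sq_to_K, (vb hX).orthonormal.1 j]
  simp

/-- Ky Fan's inequality, with weights. -/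
lemma kyfan_weights {X : Matrix ι ι ℂ} (hX : X.IsHermitian) {κ : Type*} [Fintype κ]
    (f : OrthonormalBasis κ ℂ (EuclideanSpace ℂ ι)) (d : κ → ℝ) (hd0 : ∀ y, 0 ≤ d y)
    (hd1 : ∀ y, d y ≤ 1) (t : ℕ) (ht : t ≤ Fintype.card ι) (hsum : ∑ y, d y = t) :
    ∑ y, d y * q X (f y) ≤ ∑ j : Fin (Fintype.card ι) with j.val < t, hX.eigenvalues₀ j := by
  have h1 : ∑ y, d y * q X (f y)
      = ∑ j, (∑ y, d y * ‖⟪vb hX j, f y⟫_ℂ‖ ^ 2) * hX.eigenvalues₀ j := by
    simp_rw [q_eq_sum (vb hX) _ (apply_vb hX), Finset.mul_sum, Finset.sum_mul]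
    rw [Finset.sum_comm]
    congr 1; ext1 j; congr 1; ext1 y; ring
  rw [h1]
  apply frac_subset _ _ hX.eigenvalues₀_antitone _ _ t ht
  · rw [Finset.sum_comm]
    rw [← hsum]
    congr 1; ext1 y
    rw [← Finset.mul_sum, (vb hX).sum_sq_norm_inner_right, f.orthonormal.1 y]
    simp
  · intro j
    exact Finset.sum_nonneg fun y _ => mul_nonneg (hd0 y) (sq_nonneg _)
  · intro j
    calc ∑ y, d y * ‖⟪vb hX j, f y⟫_ℂ‖ ^ 2 ≤ ∑ y, ‖⟪vb hX j, f y⟫_ℂ‖ ^ 2 := by
          apply Finset.sum_le_sum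
          intro y _
          have := hd1 y
          have h0 := sq_nonneg ‖⟪vb hX j, f y⟫_ℂ‖
          nlinarith
      _ = 1 := by
          rw [f.sum_sq_norm_inner_left, (vb hX).orthonormal.1 j]; simp

/-- Weyl's monotonicity. -/
lemma weyl {X Y : Matrix ι ι ℂ} (hX : X.IsHermitian) (hY : Y.IsHermitian)
    (h : ∀ f, q X f ≤ q Y f) (j : Fin (Fintype.card ι)) :
    hX.eigenvalues₀ j ≤ hY.eigenvalues₀ j := by
  -- find a nonzero combination of the first `j+1` eigenvectors of `X` orthogonal to the first `j`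
  -- eigenvectors of `Y`
  have hj : j.val + 1 ≤ Fintype.card ι := j.2
  let L : (Fin (j.val + 1) → ℂ) →ₗ[ℂ] (Fin j.val → ℂ) :=
    { toFun := fun c i => ∑ l : Fin (j.val + 1),
        c l * ⟪vb hY (Fin.castLE (by omega) i), vb hX (Fin.castLE hj l)⟫_ℂ
      map_add' := by
        intro c c'; ext i
        simp [add_mul, Finset.sum_add_distrib]
      map_smul' := by
        intro r c; ext i
        simp [mul_assoc, Finset.mul_sum] }
  have hker : LinearMap.ker L ≠ ⊥ := by
    apply LinearMap.ker_ne_bot_of_finrank_lt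
    simp
  obtain ⟨c, hcL, hc0⟩ := (Submodule.ne_bot_iff _).1 hker
  rw [LinearMap.mem_ker] at hcL
  set f : EuclideanSpace ℂ ι := ∑ l : Fin (j.val + 1), c l • vb hX (Fin.castLE hj l) with hf
  -- coordinates of `f`
  have hcoord : ∀ l : Fin (j.val + 1), ⟪vb hX (Fin.castLE hj l), f⟫_ℂ = c l := by
    intro l
    rw [hf, inner_sum]
    simp_rw [inner_smul_right, (vb hX).inner_eq_ite]
    simp [Fin.ext_iff]
    rw [Finset.sum_eq_single l]
    · simp
    · intro b _ hb; rw [if_neg]; intro h; exact hb (Fin.ext h.symm)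
    · simp
  have hcoord' : ∀ l : Fin (Fintype.card ι), j < l → ⟪vb hX l, f⟫_ℂ = 0 := by
    intro l hl
    rw [hf, inner_sum]
    apply Finset.sum_eq_zero
    intro i _
    rw [inner_smul_right, (vb hX).inner_eq_ite, if_neg, mul_zero]
    intro h
    have := congrArg Fin.val h
    simp at this
    have h1 := i.2
    have h2 : j.val < l.val := hl
    omega
  have hcoordY : ∀ l : Fin (Fintype.card ι), l < j → ⟪vb hY l, f⟫_ℂ = 0 := by
    intro l hl
    have := congrFun hcL ⟨l.val, hl⟩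
    simp only [L, LinearMap.coe_mk, AddHom.coe_mk, Pi.zero_apply] at this
    rw [hf, inner_sum]
    simp_rw [inner_smul_right]
    exact this
  have hfpos : 0 < ‖f‖ ^ 2 := by
    obtain ⟨l, hl⟩ := Function.ne_iff.1 hc0
    have : f ≠ 0 := by
      intro h0
      apply hl
      rw [← hcoord l, h0]; simp
    positivity
  have hXlow : hX.eigenvalues₀ j * ‖f‖ ^ 2 ≤ q X f := by
    rw [q_eq_sum (vb hX) _ (apply_vb hX), ← (vb hX).sum_sq_norm_inner_right f, Finset.mul_sum]
    apply Finset.sum_le_sum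
    intro l _
    rcases le_or_gt l j with hl | hl
    · exact mul_le_mul_of_nonneg_right (hX.eigenvalues₀_antitone hl) (sq_nonneg _)
    · rw [hcoord' l hl]; simp
  have hYup : q Y f ≤ hY.eigenvalues₀ j * ‖f‖ ^ 2 := by
    rw [q_eq_sum (vb hY) _ (apply_vb hY), ← (vb hY).sum_sq_norm_inner_right f, Finset.mul_sum]
    apply Finset.sum_le_sum
    intro l _
    rcases lt_or_ge l j with hl | hl
    · rw [hcoordY l hl]; simp
    · exact mul_le_mul_of_nonneg_right (hY.eigenvalues₀_antitone hl) (sq_nonneg _)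
  have := h f
  nlinarith

end spectral


/-! ### Tensor part -/

section tensor

variable {m n : ℕ}

/-- the vector `e ⊗ f` -/
noncomputable def tv (e : EuclideanSpace ℂ (Fin m)) (f : EuclideanSpace ℂ (Fin n)) :
    EuclideanSpace ℂ (Fin m × Fin n) := WithLp.toLp 2 (fun p => e p.1 * f p.2)

/-- contraction of `u` with `f` in the second factor -/
noncomputable def contr (f : EuclideanSpace ℂ (Fin n)) (u : EuclideanSpace ℂ (Fin m × Fin n)) :
    EuclideanSpace ℂ (Fin m) := WithLp.toLp 2 (fun a => ∑ b, (starRingEnd ℂ) (f b) * u (a, b))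

/-- contraction of `u` with `e` in the first factor -/
noncomputable def contl (e : EuclideanSpace ℂ (Fin m)) (u : EuclideanSpace ℂ (Fin m × Fin n)) :
    EuclideanSpace ℂ (Fin n) := WithLp.toLp 2 (fun b => ∑ a, (starRingEnd ℂ) (e a) * u (a, b))

lemma inner_tv (e : EuclideanSpace ℂ (Fin m)) (f : EuclideanSpace ℂ (Fin n))
    (u : EuclideanSpace ℂ (Fin m × Fin n)) : ⟪tv e f, u⟫_ℂ = ⟪e, contr f u⟫_ℂ := by
  simp only [PiLp.inner_apply, tv, contr, Fintype.sum_prod_type, RCLike.inner_apply, map_mul,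
    Finset.sum_mul]
  congr 1; ext1 a; congr 1; ext1 b; ring

lemma inner_tv' (e : EuclideanSpace ℂ (Fin m)) (f : EuclideanSpace ℂ (Fin n))
    (u : EuclideanSpace ℂ (Fin m × Fin n)) : ⟪tv e f, u⟫_ℂ = ⟪f, contl e u⟫_ℂ := by
  simp only [PiLp.inner_apply, tv, contl, Fintype.sum_prod_type, RCLike.inner_apply, map_mul,
    Finset.sum_mul]
  rw [Finset.sum_comm]
  congr 1; ext1 b; congr 1; ext1 a; ring

lemma inner_tv_tv (e e' : EuclideanSpace ℂ (Fin m)) (f f' : EuclideanSpace ℂ (Fin n)) :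
    ⟪tv e f, tv e' f'⟫_ℂ = ⟪e, e'⟫_ℂ * ⟪f, f'⟫_ℂ := by
  simp only [PiLp.inner_apply, tv, Fintype.sum_prod_type, RCLike.inner_apply, map_mul,
    Finset.sum_mul_sum]
  congr 1; ext1 a; congr 1; ext1 b; ring

lemma norm_tv_sq (e : EuclideanSpace ℂ (Fin m)) (f : EuclideanSpace ℂ (Fin n)) :
    ‖tv e f‖ ^ 2 = ‖e‖ ^ 2 * ‖f‖ ^ 2 := by
  have h := inner_tv_tv e e f f
  rw [inner_self_eq_norm_sq_to_K, inner_self_eq_norm_sq_to_K, inner_self_eq_norm_sq_to_K] at h
  exact_mod_cast h

/-- the orthonormal basis `e_x ⊗ f_y` -/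
noncomputable def tvBasis (e : OrthonormalBasis (Fin m) ℂ (EuclideanSpace ℂ (Fin m)))
    (f : OrthonormalBasis (Fin n) ℂ (EuclideanSpace ℂ (Fin n))) :
    OrthonormalBasis (Fin m × Fin n) ℂ (EuclideanSpace ℂ (Fin m × Fin n)) := by
  have ho : Orthonormal ℂ (fun p : Fin m × Fin n => tv (e p.1) (f p.2)) := by
    rw [orthonormal_iff_ite]
    rintro ⟨x, y⟩ ⟨x', y'⟩
    simp only [inner_tv_tv, e.inner_eq_ite, f.inner_eq_ite, Prod.mk.injEq]
    by_cases h1 : x = x' <;> by_cases h2 : y = y' <;> simp [h1, h2]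
  exact OrthonormalBasis.mk ho
    (ho.linearIndependent.span_eq_top_of_card_eq_finrank' (by simp)).ge

lemma tvBasis_apply (e : OrthonormalBasis (Fin m) ℂ (EuclideanSpace ℂ (Fin m)))
    (f : OrthonormalBasis (Fin n) ℂ (EuclideanSpace ℂ (Fin n))) (p : Fin m × Fin n) :
    tvBasis e f p = tv (e p.1) (f p.2) := by
  simp [tvBasis]

lemma toEuclideanLin_kronecker_tv (A : Matrix (Fin m) (Fin m) ℂ) (B : Matrix (Fin n) (Fin n) ℂ)
    (e : EuclideanSpace ℂ (Fin m)) (f : EuclideanSpace ℂ (Fin n)) :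
    Matrix.toEuclideanLin (A ⊗ₖ B) (tv e f)
      = tv (Matrix.toEuclideanLin A e) (Matrix.toEuclideanLin B f) := by
  ext ⟨a, b⟩
  simp only [tv, Matrix.toLpLin_apply, Matrix.mulVec, dotProduct, Matrix.kroneckerMap_apply,
    Fintype.sum_prod_type, Finset.sum_mul_sum]
  congr 1; ext1 a'; congr 1; ext1 b'; ring

lemma q_kronecker (A : Matrix (Fin m) (Fin m) ℂ) (B : Matrix (Fin n) (Fin n) ℂ)
    (e : OrthonormalBasis (Fin m) ℂ (EuclideanSpace ℂ (Fin m)))
    (f : OrthonormalBasis (Fin n) ℂ (EuclideanSpace ℂ (Fin n))) (a : Fin m → ℝ) (b : Fin n → ℝ)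
    (he : ∀ x, Matrix.toEuclideanLin A (e x) = (a x : ℂ) • e x)
    (hf : ∀ y, Matrix.toEuclideanLin B (f y) = (b y : ℂ) • f y)
    (u : EuclideanSpace ℂ (Fin m × Fin n)) :
    q (A ⊗ₖ B) u = ∑ x, ∑ y, a x * b y * ‖⟪tv (e x) (f y), u⟫_ℂ‖ ^ 2 := by
  rw [q_eq_sum (tvBasis e f) (fun p => a p.1 * b p.2)]
  · rw [Fintype.sum_prod_type]
    simp only [tvBasis_apply]
  · rintro ⟨x, y⟩
    rw [tvBasis_apply, toEuclideanLin_kronecker_tv, he, hf]
    ext ⟨a', b'⟩
    simp [tv]
    ring

end tensor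


/-! ### The key inequality -/

section key

lemma q_add {ι : Type*} [Fintype ι] [DecidableEq ι] (X Y : Matrix ι ι ℂ)
    (f : EuclideanSpace ℂ ι) : q (X + Y) f = q X f + q Y f := by
  simp [q]

lemma q_sum {ι κ : Type*} [Fintype ι] [DecidableEq ι] (S : Finset κ) (X : κ → Matrix ι ι ℂ)
    (f : EuclideanSpace ℂ ι) : q (∑ k ∈ S, X k) f = ∑ k ∈ S, q (X k) f := by
  simp [q, map_sum]

lemma q_vecMulVec {ι : Type*} [Fintype ι] [DecidableEq ι] (c f : EuclideanSpace ℂ ι) :
    q (Matrix.vecMulVec c (star (c : ι → ℂ))) f = ‖⟪f, c⟫_ℂ‖ ^ 2 := by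
  have h : Matrix.toEuclideanLin (Matrix.vecMulVec c (star (c : ι → ℂ))) f = ⟪c, f⟫_ℂ • c := by
    ext i
    simp only [Matrix.toLpLin_apply, Matrix.mulVec, dotProduct, Matrix.vecMulVec_apply,
      PiLp.smul_apply, smul_eq_mul, PiLp.inner_apply, RCLike.inner_apply, Finset.sum_mul]
    congr 1; ext1 j
    simp
    ring
  unfold q
  rw [h, inner_smul_right]
  have h2 : ⟪c, f⟫_ℂ = (starRingEnd ℂ) ⟪f, c⟫_ℂ := (inner_conj_symm _ _).symm
  rw [h2, mul_comm, Complex.mul_conj', ← Complex.ofReal_pow, Complex.ofReal_re]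

/-- sum of rank one matrices -/
noncomputable def gramS {ι κ : Type*} [Fintype ι] [DecidableEq ι] (S : Finset κ)
    (c : κ → EuclideanSpace ℂ ι) : Matrix ι ι ℂ :=
  ∑ k ∈ S, Matrix.vecMulVec (c k) (star (c k : ι → ℂ))

lemma gramS_isHermitian {ι κ : Type*} [Fintype ι] [DecidableEq ι] (S : Finset κ)
    (c : κ → EuclideanSpace ℂ ι) : (gramS S c).IsHermitian := by
  unfold gramS Matrix.IsHermitian
  rw [Matrix.conjTranspose_sum]
  congr 1; ext1 k
  rw [Matrix.conjTranspose_vecMulVec, star_star]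

lemma q_gramS {ι κ : Type*} [Fintype ι] [DecidableEq ι] (S : Finset κ)
    (c : κ → EuclideanSpace ℂ ι) (f : EuclideanSpace ℂ ι) :
    q (gramS S c) f = ∑ k ∈ S, ‖⟪f, c k⟫_ℂ‖ ^ 2 := by
  unfold gramS
  rw [q_sum]
  simp_rw [q_vecMulVec]

variable {m n : ℕ}

/-- the reduced matrix of the family `u` -/
noncomputable def rho {τ : Type*} [Fintype τ] (u : τ → EuclideanSpace ℂ (Fin m × Fin n)) :
    Matrix (Fin n) (Fin n) ℂ :=
  gramS (univ : Finset (Fin m × τ)) (fun k => contl (EuclideanSpace.basisFun (Fin m) ℂ k.1) (u k.2))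

lemma rho_isHermitian {τ : Type*} [Fintype τ] (u : τ → EuclideanSpace ℂ (Fin m × Fin n)) :
    (rho u).IsHermitian := gramS_isHermitian _ _

lemma q_rho {τ : Type*} [Fintype τ] (u : τ → EuclideanSpace ℂ (Fin m × Fin n))
    (f : EuclideanSpace ℂ (Fin n)) (e : OrthonormalBasis (Fin m) ℂ (EuclideanSpace ℂ (Fin m))) :
    q (rho u) f = ∑ x, ∑ l, ‖⟪tv (e x) f, u l⟫_ℂ‖ ^ 2 := by
  have h : ∀ e : OrthonormalBasis (Fin m) ℂ (EuclideanSpace ℂ (Fin m)),
      ∑ x, ∑ l, ‖⟪tv (e x) f, u l⟫_ℂ‖ ^ 2 = ∑ l, ‖contr f (u l)‖ ^ 2 := by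
    intro e
    rw [Finset.sum_comm]
    simp_rw [inner_tv, e.sum_sq_norm_inner_right]
  rw [h e, ← h (EuclideanSpace.basisFun (Fin m) ℂ), rho, q_gramS, Fintype.sum_prod_type]
  simp_rw [inner_tv']

lemma bessel {τ : Type*} [Fintype τ] {u : τ → EuclideanSpace ℂ (Fin m × Fin n)}
    (hu : Orthonormal ℂ u) (e : EuclideanSpace ℂ (Fin m)) (f : EuclideanSpace ℂ (Fin n)) :
    ∑ l, ‖⟪tv e f, u l⟫_ℂ‖ ^ 2 ≤ ‖e‖ ^ 2 * ‖f‖ ^ 2 := by
  rw [← norm_tv_sq]
  refine le_trans (le_of_eq ?_) (hu.sum_inner_products_le (tv e f) (s := univ))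
  congr 1; ext1 l
  rw [norm_inner_symm]

lemma sum_eigenvalues_rho {τ : Type*} [Fintype τ] {u : τ → EuclideanSpace ℂ (Fin m × Fin n)}
    (hu : Orthonormal ℂ u) :
    ∑ j, (rho_isHermitian u).eigenvalues₀ j = Fintype.card τ := by
  have h1 : ∀ j, (rho_isHermitian u).eigenvalues₀ j
      = ∑ l, ∑ x, ‖⟪vb (rho_isHermitian u) j, contl (EuclideanSpace.basisFun (Fin m) ℂ x) (u l)⟫_ℂ‖ ^ 2 := by
    intro j
    rw [← q_vb, q_rho u _ (EuclideanSpace.basisFun (Fin m) ℂ), Finset.sum_comm]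
    simp_rw [inner_tv']
  simp_rw [h1]
  rw [Finset.sum_comm]
  have h2 : ∀ l, ∑ j, ∑ x, ‖⟪vb (rho_isHermitian u) j,
      contl (EuclideanSpace.basisFun (Fin m) ℂ x) (u l)⟫_ℂ‖ ^ 2 = 1 := by
    intro l
    rw [Finset.sum_comm]
    simp_rw [OrthonormalBasis.sum_sq_norm_inner_right]
    have h3 : ‖u l‖ ^ 2 = 1 := by rw [hu.1 l]; simp
    rw [← h3, EuclideanSpace.norm_sq_eq, Fintype.sum_prod_type]
    congr 1; ext1 a
    rw [EuclideanSpace.norm_sq_eq]
    congr 1; ext1 b
    simp [contl, EuclideanSpace.basisFun_apply]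
  simp only [h2]
  simp

lemma eigenvalues_rho_nonneg {τ : Type*} [Fintype τ] (u : τ → EuclideanSpace ℂ (Fin m × Fin n))
    (j) : 0 ≤ (rho_isHermitian u).eigenvalues₀ j := by
  rw [← q_vb, q_rho u _ (EuclideanSpace.basisFun (Fin m) ℂ)]
  exact Finset.sum_nonneg fun _ _ => Finset.sum_nonneg fun _ _ => sq_nonneg _

lemma eigenvalues_rho_le {τ : Type*} [Fintype τ] {u : τ → EuclideanSpace ℂ (Fin m × Fin n)}
    (hu : Orthonormal ℂ u) (j) : (rho_isHermitian u).eigenvalues₀ j ≤ m := by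
  rw [← q_vb, q_rho u _ (EuclideanSpace.basisFun (Fin m) ℂ)]
  calc ∑ x, ∑ l, ‖⟪tv (EuclideanSpace.basisFun (Fin m) ℂ x) (vb (rho_isHermitian u) j), u l⟫_ℂ‖ ^ 2
      ≤ ∑ x : Fin m, (1 : ℝ) := by
        apply Finset.sum_le_sum
        intro x _
        refine (bessel hu _ _).trans (le_of_eq ?_)
        rw [(EuclideanSpace.basisFun (Fin m) ℂ).orthonormal.1 x,
          (vb (rho_isHermitian u)).orthonormal.1 j]
        simp
    _ = m := by simp

/-- the key inequality -/
lemma key_ineq {τ : Type*} [Fintype τ] {u : τ → EuclideanSpace ℂ (Fin m × Fin n)}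
    (hu : Orthonormal ℂ u) (e : OrthonormalBasis (Fin m) ℂ (EuclideanSpace ℂ (Fin m)))
    (f : OrthonormalBasis (Fin n) ℂ (EuclideanSpace ℂ (Fin n))) (r s : ℕ) (hr : r ≤ m)
    (hs : s ≤ n) :
    ∑ y : Fin n with y.val < s, ∑ x : Fin m with x.val < r, ∑ l, ‖⟪tv (e x) (f y), u l⟫_ℂ‖ ^ 2
      ≤ ∑ j : Fin (Fintype.card (Fin n)) with j.val < s,
          min ((rho_isHermitian u).eigenvalues₀ j) r := by
  classical
  -- the matrix R
  set S : Finset (Fin m × τ) := (univ.filter (fun x : Fin m => x.val < r)) ×ˢ univ with hS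
  set R := gramS S (fun k => contl (e k.1) (u k.2)) with hR
  have hRH : R.IsHermitian := gramS_isHermitian _ _
  have hqR : ∀ g : EuclideanSpace ℂ (Fin n),
      q R g = ∑ x : Fin m with x.val < r, ∑ l, ‖⟪tv (e x) g, u l⟫_ℂ‖ ^ 2 := by
    intro g
    rw [hR, q_gramS, hS, Finset.sum_product]
    simp_rw [inner_tv']
  -- comparison with rho
  have h1 : ∀ g, q R g ≤ q (rho u) g := by
    intro g
    rw [hqR, q_rho u g e]
    exact Finset.sum_le_sum_of_subset_of_nonneg (Finset.filter_subset _ _)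
      (fun x _ _ => Finset.sum_nonneg fun _ _ => sq_nonneg _)
  have h2 : ∀ j, hRH.eigenvalues₀ j ≤ min ((rho_isHermitian u).eigenvalues₀ j) r := by
    intro j
    apply le_min
    · exact weyl hRH (rho_isHermitian u) h1 j
    · rw [← q_vb, hqR]
      calc ∑ x : Fin m with x.val < r, ∑ l, ‖⟪tv (e x) (vb hRH j), u l⟫_ℂ‖ ^ 2
          ≤ ∑ x : Fin m with x.val < r, (1 : ℝ) := by
            apply Finset.sum_le_sum
            intro x _
            refine (bessel hu _ _).trans (le_of_eq ?_)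
            rw [e.orthonormal.1 x, (vb hRH).orthonormal.1 j]
            simp
        _ = r := by
            rw [Finset.sum_const, nsmul_eq_mul, mul_one, Fin.card_filter_val_lt]
            congr 1; omega
  -- Ky Fan
  have h3 := kyfan_weights hRH f (fun y => if y.val < s then 1 else 0)
    (fun y => by split_ifs <;> simp) (fun y => by split_ifs <;> simp) s (by simpa using hs) (by
      rw [Finset.sum_ite]
      simp only [Finset.sum_const, nsmul_eq_mul, mul_one, mul_zero, add_zero,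
        Fin.card_filter_val_lt]
      congr 1; omega)
  have h4 : ∑ y, (if y.val < s then (1 : ℝ) else 0) * q R (f y)
      = ∑ y : Fin n with y.val < s, ∑ x : Fin m with x.val < r,
        ∑ l, ‖⟪tv (e x) (f y), u l⟫_ℂ‖ ^ 2 := by
    rw [Finset.sum_filter]
    congr 1; ext1 y
    split_ifs
    · rw [one_mul, hqR]
    · simp
  rw [← h4]
  exact h3.trans (Finset.sum_le_sum fun j _ => h2 j)

end key


/-! ### The weights `d x y` -/

section weights

/-- the portion of the unit interval `[x, x+1]` below height `β` -/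
noncomputable def cell (β : ℝ) (x : ℕ) : ℝ := max 0 (min 1 (β - x))

lemma cell_nonneg (β : ℝ) (x : ℕ) : 0 ≤ cell β x := le_max_left _ _

lemma cell_le_one (β : ℝ) (x : ℕ) : cell β x ≤ 1 := max_le zero_le_one (min_le_left _ _)

lemma sum_cell {β : ℝ} (hβ : 0 ≤ β) (r : ℕ) : ∑ x ∈ Finset.range r, cell β x = min β r := by
  induction r with
  | zero => simp [hβ]
  | succ r ih =>
    rw [Finset.sum_range_succ, ih]
    unfold cell
    push_cast
    rcases le_total β r with h | h
    · rw [min_eq_left h, min_eq_left (by linarith : β ≤ (r : ℝ) + 1), max_eq_left, add_zero]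
      exact (min_le_right _ _).trans (by linarith)
    · rw [min_eq_right h]
      rcases le_total β (r + 1) with h' | h'
      · rw [min_eq_left h', min_eq_right (by linarith : β - r ≤ 1), max_eq_right (by linarith)]
        ring
      · rw [min_eq_right h', min_eq_left (by linarith : (1 : ℝ) ≤ β - r),
          max_eq_right zero_le_one]

lemma sum_cell_fin {m : ℕ} {β : ℝ} (hβ : 0 ≤ β) (r : ℕ) (hr : r ≤ m) :
    ∑ x : Fin m with x.val < r, cell β x.val = min β r := by
  rw [← sum_cell hβ r]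
  rw [Finset.sum_filter, Fin.sum_univ_eq_sum_range (fun x => if x < r then cell β x else 0) m,
    ← Finset.sum_filter]
  congr 1
  ext x
  simp; omega

end weights

/-! ### The main theorem -/

section main

/-- `eig hX` is the vector `λ(X)` of eigenvalues of the Hermitian `k × k` matrix `X`, listed with
multiplicity in nonincreasing order (indexed by `Fin k`). -/
noncomputable def eig {k : ℕ} {X : Matrix (Fin k) (Fin k) ℂ} (hX : X.IsHermitian) : Fin k → ℝ :=
  fun i => hX.eigenvalues₀ (Fin.cast (Fintype.card_fin k).symm i)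

/-- `down hX` is `X↓`, the diagonal matrix with the eigenvalues of `X` on the diagonal in
nonincreasing order. -/
noncomputable def down {k : ℕ} {X : Matrix (Fin k) (Fin k) ℂ} (hX : X.IsHermitian) :
    Matrix (Fin k) (Fin k) ℂ := Matrix.diagonal (fun i => (eig hX i : ℂ))

lemma eig_antitone {k : ℕ} {X : Matrix (Fin k) (Fin k) ℂ} (hX : X.IsHermitian) :
    Antitone (eig hX) := by
  intro i j hij
  apply hX.eigenvalues₀_antitone
  rw [Fin.le_def] at hij ⊢
  exact hij

/-- eigenbasis indexed by `Fin k` -/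
noncomputable def vF {k : ℕ} {X : Matrix (Fin k) (Fin k) ℂ} (hX : X.IsHermitian) :
    OrthonormalBasis (Fin k) ℂ (EuclideanSpace ℂ (Fin k)) :=
  (vb hX).reindex (finCongr (Fintype.card_fin k))

lemma apply_vF {k : ℕ} {X : Matrix (Fin k) (Fin k) ℂ} (hX : X.IsHermitian) (j : Fin k) :
    Matrix.toEuclideanLin X (vF hX j) = (eig hX j : ℂ) • vF hX j := by
  unfold vF eig
  rw [OrthonormalBasis.reindex_apply]
  exact apply_vb hX _

lemma eigenvalues₀_nonneg {ι : Type*} [Fintype ι] [DecidableEq ι] {X : Matrix ι ι ℂ}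
    (hX : X.PosSemidef) (j : Fin (Fintype.card ι)) : 0 ≤ hX.1.eigenvalues₀ j := by
  have := hX.eigenvalues_nonneg (Fintype.equivOfCardEq (Fintype.card_fin _) j)
  unfold Matrix.IsHermitian.eigenvalues at this
  simpa using this

lemma eig_nonneg {k : ℕ} {X : Matrix (Fin k) (Fin k) ℂ} (hX : X.PosSemidef) (j : Fin k) :
    0 ≤ eig hX.1 j := eigenvalues₀_nonneg hX _

lemma sum_eigenvalues₀ {ι : Type*} [Fintype ι] [DecidableEq ι] {X : Matrix ι ι ℂ}
    (hX : X.IsHermitian) : ((∑ j, hX.eigenvalues₀ j : ℝ) : ℂ) = X.trace := by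
  rw [hX.trace_eq_sum_eigenvalues]
  unfold Matrix.IsHermitian.eigenvalues
  push_cast
  exact (Equiv.sum_comp (Fintype.equivOfCardEq (Fintype.card_fin _)).symm
    (fun j => ((hX.eigenvalues₀ j : ℝ) : ℂ))).symm

lemma trace_down {k : ℕ} {X : Matrix (Fin k) (Fin k) ℂ} (hX : X.IsHermitian) :
    (down hX).trace = X.trace := by
  rw [down, Matrix.trace_diagonal, ← sum_eigenvalues₀ hX]
  push_cast
  unfold eig
  exact Equiv.sum_comp (finCongr (Fintype.card_fin k).symm)
    (fun j => ((hX.eigenvalues₀ j : ℝ) : ℂ))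

lemma down_isHermitian {k : ℕ} {X : Matrix (Fin k) (Fin k) ℂ} (hX : X.IsHermitian) :
    (down hX).IsHermitian := by
  unfold down
  apply Matrix.isHermitian_diagonal_of_self_adjoint
  ext i
  simp

/-- `sortDesc x` is `x↓`, the vector `x` sorted nonincreasingly. -/
noncomputable def sortDesc {k : ℕ} (x : Fin k → ℝ) : Fin k → ℝ :=
  fun i => x (Tuple.sort x (Fin.rev i))

/-- `Majorized x y`: `x` is majorized by `y`. The partial sums of the nonincreasing rearrangement of
`x` are at most those of `y`, and the total sums agree. -/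
def Majorized {k : ℕ} (x y : Fin k → ℝ) : Prop :=
  (∀ t : ℕ, t ≤ k → ∑ j : Fin k with j.val < t, sortDesc x j
    ≤ ∑ j : Fin k with j.val < t, sortDesc y j) ∧ ∑ j, x j = ∑ j, y j

lemma sortDesc_of_antitone {k : ℕ} {x : Fin k → ℝ} (hx : Antitone x) : sortDesc x = x := by
  have h1 : Monotone (x ∘ Fin.revPerm) := by
    intro i j hij
    exact hx (Fin.rev_le_rev.2 hij)
  have h2 := Tuple.unique_monotone (Tuple.monotone_sort x) h1
  ext i
  have := congrFun h2 (Fin.rev i)
  simp only [Function.comp_apply, Fin.revPerm_apply, Fin.rev_rev] at this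
  exact this

lemma sum_filter_lt_eq {k t : ℕ} (ht : t ≤ k) (g : Fin k → ℝ) :
    ∑ j : Fin k with j.val < t, g j = ∑ l : Fin t, g (Fin.castLE ht l) := by
  have : univ.filter (fun j : Fin k => j.val < t) = univ.map (Fin.castLEEmb ht) := by
    ext j
    simp only [mem_filter, mem_univ, true_and, mem_map, Fin.castLEEmb_apply]
    constructor
    · intro h; exact ⟨⟨j.val, h⟩, rfl⟩
    · rintro ⟨l, rfl⟩; exact l.2
  rw [this, Finset.sum_map]
  rfl

lemma q_basisFun {ι : Type*} [Fintype ι] [DecidableEq ι] (X : Matrix ι ι ℂ) (p : ι) :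
    q X (EuclideanSpace.basisFun ι ℂ p) = (X p p).re := by
  unfold q
  congr 1
  simp [EuclideanSpace.basisFun_apply, EuclideanSpace.inner_single_left, Matrix.toLpLin_apply]

theorem main {m n : ℕ} {ι : Type*} [Fintype ι]
    (A : ι → Matrix (Fin m) (Fin m) ℂ) (B : ι → Matrix (Fin n) (Fin n) ℂ)
    (hA : ∀ i, (A i).PosSemidef) (hB : ∀ i, (B i).PosSemidef) :
    ∃ (hM : (∑ i, A i ⊗ₖ B i).IsHermitian)
      (hM' : (∑ i, down (hA i).1 ⊗ₖ down (hB i).1).IsHermitian),
      Majorized hM.eigenvalues₀ hM'.eigenvalues₀ := by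
  classical
  have hM : (∑ i, A i ⊗ₖ B i).IsHermitian := by
    refine (Matrix.posSemidef_sum univ fun i _ => ?_).1
    exact (hA i).kronecker (hB i)
  have hM' : (∑ i, down (hA i).1 ⊗ₖ down (hB i).1).IsHermitian := by
    unfold Matrix.IsHermitian
    rw [Matrix.conjTranspose_sum]
    congr 1; ext1 i
    rw [Matrix.conjTranspose_kronecker, (down_isHermitian (hA i).1).eq,
      (down_isHermitian (hB i).1).eq]
  refine ⟨hM, hM', ?_, ?_⟩
  · intro t ht
    rw [sortDesc_of_antitone hM.eigenvalues₀_antitone,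
      sortDesc_of_antitone hM'.eigenvalues₀_antitone]
    -- top eigenvectors
    let u : Fin t → EuclideanSpace ℂ (Fin m × Fin n) := fun l => vb hM (Fin.castLE ht l)
    have hu : Orthonormal ℂ u := (vb hM).orthonormal.comp _ (Fin.castLE_injective ht)
    -- heights
    set β : Fin n → ℝ := fun y =>
      (rho_isHermitian u).eigenvalues₀ (Fin.cast (Fintype.card_fin n).symm y) with hβ
    have hβ0 : ∀ y, 0 ≤ β y := fun y => eigenvalues_rho_nonneg u _
    have hβm : ∀ y, β y ≤ m := fun y => eigenvalues_rho_le hu _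
    have hβsum : ∑ y, β y = t := by
      have h := sum_eigenvalues_rho hu
      rw [Fintype.card_fin t] at h
      rw [← h]
      exact Equiv.sum_comp (finCongr (Fintype.card_fin n).symm)
        (fun j => (rho_isHermitian u).eigenvalues₀ j)
    -- step 1 : expression of the sum of the top eigenvalues
    have s1 : ∑ j : Fin (Fintype.card (Fin m × Fin n)) with j.val < t, hM.eigenvalues₀ j
        = ∑ l : Fin t, q (∑ i, A i ⊗ₖ B i) (u l) := by
      simp only [u, q_vb]
      exact sum_filter_lt_eq ht _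
    have s2 : ∑ l : Fin t, q (∑ i, A i ⊗ₖ B i) (u l)
        = ∑ i, ∑ x, ∑ y, eig (hA i).1 x * eig (hB i).1 y *
          ∑ l, ‖⟪tv (vF (hA i).1 x) (vF (hB i).1 y), u l⟫_ℂ‖ ^ 2 := by
      simp_rw [q_sum]
      rw [Finset.sum_comm]
      congr 1; ext1 i
      simp_rw [q_kronecker (A i) (B i) (vF (hA i).1) (vF (hB i).1) _ _ (apply_vF (hA i).1)
        (apply_vF (hB i).1)]
      rw [Finset.sum_comm]
      congr 1; ext1 x
      rw [Finset.sum_comm]
      congr 1; ext1 y
      rw [Finset.mul_sum]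
    -- step 2 : comparison
    have s3 : ∑ i, ∑ x, ∑ y, eig (hA i).1 x * eig (hB i).1 y *
          ∑ l, ‖⟪tv (vF (hA i).1 x) (vF (hB i).1 y), u l⟫_ℂ‖ ^ 2
        ≤ ∑ i, ∑ x, ∑ y, eig (hA i).1 x * eig (hB i).1 y * cell (β y) x.val := by
      apply Finset.sum_le_sum
      intro i _
      apply abel_two _ _ (fun x y => ∑ l, ‖⟪tv (vF (hA i).1 x) (vF (hB i).1 y), u l⟫_ℂ‖ ^ 2)
        (fun x y => cell (β y) x.val) (eig_antitone _) (eig_nonneg (hA i)) (eig_antitone _)
        (eig_nonneg (hB i))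
      intro r hr s hs
      refine (key_ineq hu _ _ r s hr hs).trans (le_of_eq ?_)
      have h1 : ∀ y, ∑ x : Fin m with x.val < r, cell (β y) x.val = min (β y) r :=
        fun y => sum_cell_fin (hβ0 y) r hr
      simp_rw [h1, Finset.sum_filter, hβ]
      exact (Equiv.sum_comp (finCongr (Fintype.card_fin n).symm)
        (fun j => if j.val < s then min ((rho_isHermitian u).eigenvalues₀ j) (r : ℝ) else 0)).symm
    -- step 3 : the diagonal matrix
    have s4 : ∑ i, ∑ x, ∑ y, eig (hA i).1 x * eig (hB i).1 y * cell (β y) x.val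
        = ∑ p : Fin m × Fin n, cell (β p.2) p.1.val *
          q (∑ i, down (hA i).1 ⊗ₖ down (hB i).1)
            (EuclideanSpace.basisFun (Fin m × Fin n) ℂ p) := by
      have h1 : ∀ p : Fin m × Fin n, q (∑ i, down (hA i).1 ⊗ₖ down (hB i).1)
            (EuclideanSpace.basisFun (Fin m × Fin n) ℂ p)
            = ∑ i, eig (hA i).1 p.1 * eig (hB i).1 p.2 := by
        intro p
        rw [q_basisFun, Matrix.sum_apply, Complex.re_sum]
        congr 1; ext1 i
        simp [down, Matrix.kroneckerMap_apply]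
      simp_rw [h1, Fintype.sum_prod_type, Finset.mul_sum]
      rw [Finset.sum_comm]
      congr 1; ext1 x
      rw [Finset.sum_comm]
      congr 1; ext1 y
      congr 1; ext1 i
      ring
    have s5 := kyfan_weights hM' (EuclideanSpace.basisFun (Fin m × Fin n) ℂ)
      (fun p => cell (β p.2) p.1.val) (fun p => cell_nonneg _ _) (fun p => cell_le_one _ _) t ht
      (by
        rw [Fintype.sum_prod_type, Finset.sum_comm, ← hβsum]
        congr 1; ext1 y
        have h := sum_cell_fin (hβ0 y) m le_rfl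
        rw [Finset.filter_true_of_mem (fun x _ => x.2), min_eq_left (hβm y)] at h
        exact h)
    rw [s1, s2]
    exact s3.trans (s4.le.trans s5)
  · have h : ((∑ j, hM.eigenvalues₀ j : ℝ) : ℂ) = ((∑ j, hM'.eigenvalues₀ j : ℝ) : ℂ) := by
      rw [sum_eigenvalues₀, sum_eigenvalues₀, Matrix.trace_sum, Matrix.trace_sum]
      congr 1; ext1 i
      rw [Matrix.trace_kronecker, Matrix.trace_kronecker, trace_down, trace_down]
    exact_mod_cast h

/-- **Separable refinement of Ky Fan's majorization, for any number of summands.**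
For positive semidefinite complex matrices `A i` of size `m` and `B i` of size `n` (`i` in a finite
type), `λ(∑ i, A i ⊗ B i)` is majorized by `λ(∑ i, (A i)↓ ⊗ (B i)↓)`. -/
theorem result {m n : ℕ} {ι : Type*} [Fintype ι]
    (A : ι → Matrix (Fin m) (Fin m) ℂ) (B : ι → Matrix (Fin n) (Fin n) ℂ)
    (hA : ∀ i, (A i).PosSemidef) (hB : ∀ i, (B i).PosSemidef) :
    ∃ (hM : (∑ i, A i ⊗ₖ B i).IsHermitian)
      (hM' : (∑ i, down (hA i).isHermitian ⊗ₖ down (hB i).isHermitian).IsHermitian),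
      Majorized hM.eigenvalues₀ hM'.eigenvalues₀ :=
  main A B hA hB

end main

end Pool.Agent.Results.MP_5fe7ea_an.SeparableKyFan
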